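import Mathlib
import Pool.Agent.R528.RM.Tails

/-!
# Disjoint families of places in an adapted random set
-/

set_option autoImplicit false
set_option linter.unusedSectionVars false

open MeasureTheory Filter Set
open scoped ENNReal Topology

namespace Pool.Agent.N727.SM

open Pool.Agent.R528.RM

variable {Ω : Type} {m0 : MeasurableSpace Ω} {μ : Measure Ω} [IsProbabilityMeasure μ]
  {ℱ : Filtration ℕ m0} {A : ℕ → Set Ω}

/-- none of the places `t 0, ..., t (K - 1)` is chosen, and there is no violation before them -/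
def NP (A V : ℕ → Set Ω) (t : ℕ → ℕ) : ℕ → Set Ω
  | 0 => univ
  | K + 1 => (NP A V t K \ V (t K - 1)) \ A (t K)

lemma mem_NP (A V : ℕ → Set Ω) (t : ℕ → ℕ) (K : ℕ) (ω : Ω) :
    ω ∈ NP A V t K ↔ ∀ i < K, ω ∉ V (t i - 1) ∧ ω ∉ A (t i) := by
  induction K with
  | zero => simp [NP]
  | succ K ih =>
    have : ω ∈ NP A V t (K + 1) ↔ (ω ∈ NP A V t K ∧ ω ∉ V (t K - 1)) ∧ ω ∉ A (t K) := Iff.rfl
    rw [this, ih]
    constructor
    · rintro ⟨⟨h1, h2⟩, h3⟩ i hi
      rcases Nat.lt_succ_iff_lt_or_eq.1 hi with h | h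
      · exact h1 i h
      · subst h; exact ⟨h2, h3⟩
    · intro h
      exact ⟨⟨fun i hi => h i (by omega), (h K (by omega)).1⟩, (h K (by omega)).2⟩

/-- no success at increasing places, from above -/
theorem NP_le (hA : ∀ n, MeasurableSet[ℱ n] (A n)) {V : ℕ → Set Ω}
    (hV : ∀ n, MeasurableSet[ℱ n] (V n)) {t : ℕ → ℕ} (ht : StrictMono t) (h0 : 1 ≤ t 0) {l : ℝ}
    (hl1 : l ≤ 1) (K : ℕ) (hl : ∀ i < K, ∀ ω, ω ∉ V (t i - 1) → l ≤ dens μ ℱ A (t i - 1) ω) :
    MeasurableSet[ℱ (t K - 1)] (NP A V t K) ∧ μ.real (NP A V t K) ≤ (1 - l) ^ K := by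
  induction K with
  | zero => exact ⟨MeasurableSet.univ, by simp [NP]⟩
  | succ K ih =>
    obtain ⟨h1, h2⟩ := ih fun i hi => hl i (by omega)
    have ht1 : 1 ≤ t K := h0.trans (ht.monotone (Nat.zero_le K))
    have htK : t K < t (K + 1) := ht (Nat.lt_succ_self K)
    have e : t K - 1 + 1 = t K := by omega
    have hB : MeasurableSet[ℱ (t K - 1)] (NP A V t K \ V (t K - 1)) := h1.diff (hV _)
    have hA' : MeasurableSet (A (t K)) := ℱ.le _ _ (hA _)
    refine ⟨?_, ?_⟩
    · have h3 : MeasurableSet[ℱ (t K)] ((NP A V t K \ V (t K - 1)) \ A (t K)) :=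
        (ℱ.mono (by omega) _ hB).diff (hA (t K))
      exact ℱ.mono (by omega) _ h3
    · have hlow := lower_meas (μ := μ) hA (t K - 1) hB (l := l)
        (fun ω hω => hl K (by omega) ω hω.2)
      rw [e] at hlow
      have h3 := measureReal_inter_add_sdiff (μ := μ) (s := NP A V t K \ V (t K - 1)) hA'
      have h4 : NP A V t (K + 1) = (NP A V t K \ V (t K - 1)) \ A (t K) := rfl
      have h5 : μ.real (NP A V t K \ V (t K - 1)) ≤ μ.real (NP A V t K) :=
        measureReal_mono sdiff_subset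
      have h6 : 0 ≤ μ.real (NP A V t K \ V (t K - 1)) := measureReal_nonneg
      rw [h4, pow_succ]
      have h7 : (1 - l) * μ.real (NP A V t K \ V (t K - 1)) ≤ (1 - l) * (1 - l) ^ K :=
        mul_le_mul_of_nonneg_left (h5.trans h2) (by linarith)
      nlinarith

/-- every set of the family contains a chosen place -/
def ev (A : ℕ → Set Ω) (F : Finset ℕ) (B : ℕ → Finset ℕ) : Set Ω :=
  {ω | ∀ i ∈ F, ∃ n ∈ B i, ω ∈ A n}

/-- **disjoint families of places** -/
theorem pat_le (hA : ∀ n, MeasurableSet[ℱ n] (A n)) {V : ℕ → Set Ω}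
    (hV : ∀ n, MeasurableSet[ℱ n] (V n)) {u : ℝ} (hu0 : 0 ≤ u) (hu1 : u ≤ 1) (j : ℕ) :
    ∀ T, (∀ n, T ≤ n → n < T + j → ∀ ω, ω ∉ V n → dens μ ℱ A n ω ≤ u) →
      ∀ (F : Finset ℕ) (B : ℕ → Finset ℕ), (∀ i ∈ F, B i ⊆ Finset.Ioc T (T + j)) →
        (∀ i ∈ F, ∀ i' ∈ F, i ≠ i' → Disjoint (B i) (B i')) →
        ∀ C, MeasurableSet[ℱ T] C →
          μ.real ((C ∩ ev A F B) \ WV V T j) ≤ (∏ i ∈ F, (1 - (1 - u) ^ (B i).card)) * μ.real C := by
  have hp : ∀ (F : Finset ℕ) (B : ℕ → Finset ℕ), 0 ≤ ∏ i ∈ F, (1 - (1 - u) ^ (B i).card) := by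
    intro F B
    refine Finset.prod_nonneg fun i _ => ?_
    have : (1 - u) ^ (B i).card ≤ 1 := pow_le_one₀ (by linarith) (by linarith)
    linarith
  induction j with
  | zero =>
    intro T _ F B hB _ C _
    rcases F.eq_empty_or_nonempty with hF | ⟨i, hi⟩
    · subst hF
      rw [Finset.prod_empty, one_mul]
      exact measureReal_mono (sdiff_subset.trans inter_subset_left)
    · have he : (C ∩ ev A F B) \ WV V T 0 = ∅ := by
        ext ω
        simp only [Set.mem_sdiff, mem_inter_iff, mem_empty_iff_false, iff_false]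
        rintro ⟨⟨_, h⟩, _⟩
        obtain ⟨n, hn, _⟩ := h i hi
        have := Finset.mem_Ioc.1 (hB i hi hn)
        omega
      rw [he, measureReal_empty]
      exact mul_nonneg (hp F B) measureReal_nonneg
  | succ j ih =>
    intro T hbd F B hB hdis C hC
    have hbd' : ∀ n, T + 1 ≤ n → n < T + 1 + j → ∀ ω, ω ∉ V n → dens μ ℱ A n ω ≤ u :=
      fun n h1 h2 => hbd n (by omega) (by omega)
    set C' : Set Ω := C \ V T with hC'
    have hCm : MeasurableSet[ℱ T] C' := hC.diff (hV T)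
    have hCm' : MeasurableSet[ℱ (T + 1)] C' := ℱ.mono (Nat.le_succ T) _ hCm
    have hsub : (C ∩ ev A F B) \ WV V T (j + 1) ⊆ (C' ∩ ev A F B) \ WV V (T + 1) j := by
      rintro ω ⟨⟨h1, h2⟩, h3⟩
      rw [WV_succ] at h3
      simp only [mem_union, not_or] at h3
      exact ⟨⟨⟨h1, h3.1⟩, h2⟩, h3.2⟩
    have hC'C : μ.real C' ≤ μ.real C := measureReal_mono sdiff_subset
    by_cases hex : ∃ i ∈ F, T + 1 ∈ B i
    · obtain ⟨i₀, hi₀, hT⟩ := hex
      have hnot : ∀ i ∈ F, i ≠ i₀ → T + 1 ∉ B i := fun i hi hne hmem =>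
        Finset.disjoint_left.1 (hdis i hi i₀ hi₀ hne) hmem hT
      have hA1 : MeasurableSet (A (T + 1)) := ℱ.le _ _ (hA _)
      set B' : ℕ → Finset ℕ := fun i => (B i).erase (T + 1) with hB'
      have hB's : ∀ i ∈ F, B' i ⊆ Finset.Ioc (T + 1) (T + 1 + j) := by
        intro i hi n hn
        have h1 := Finset.mem_erase.1 hn
        have h2 := Finset.mem_Ioc.1 (hB i hi h1.2)
        rw [Finset.mem_Ioc]
        have := h1.1
        omega
      have hBs : ∀ i ∈ F.erase i₀, B i ⊆ Finset.Ioc (T + 1) (T + 1 + j) := by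
        intro i hi n hn
        obtain ⟨h1, h2⟩ := Finset.mem_erase.1 hi
        have h3 := Finset.mem_Ioc.1 (hB i h2 hn)
        have h4 : n ≠ T + 1 := fun h => hnot i h2 h1 (h ▸ hn)
        rw [Finset.mem_Ioc]
        omega
      have hdisj' : ∀ i ∈ F, ∀ i' ∈ F, i ≠ i' → Disjoint (B' i) (B' i') := fun i hi i' hi' hne =>
        (hdis i hi i' hi' hne).mono (Finset.erase_subset _ _) (Finset.erase_subset _ _)
      have hdisj'' : ∀ i ∈ F.erase i₀, ∀ i' ∈ F.erase i₀, i ≠ i' → Disjoint (B i) (B i') :=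
        fun i hi i' hi' hne => hdis i (Finset.mem_of_mem_erase hi) i' (Finset.mem_of_mem_erase hi') hne
      have h1 := ih (T + 1) hbd' (F.erase i₀) B hBs hdisj'' (C' ∩ A (T + 1)) (hCm'.inter (hA _))
      have h2 := ih (T + 1) hbd' F B' hB's hdisj' (C' \ A (T + 1)) (hCm'.diff (hA _))
      set P : ℝ := ∏ i ∈ F.erase i₀, (1 - (1 - u) ^ (B i).card) with hP
      have hP0 : 0 ≤ P := hp _ _
      have hcard : (B i₀).card = (B' i₀).card + 1 := (Finset.card_erase_add_one hT).symm
      have hprod' : ∏ i ∈ F, (1 - (1 - u) ^ (B' i).card) = (1 - (1 - u) ^ (B' i₀).card) * P := by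
        rw [← Finset.mul_prod_erase F _ hi₀]
        congr 1
        refine Finset.prod_congr rfl fun i hi => ?_
        obtain ⟨h3, h4⟩ := Finset.mem_erase.1 hi
        have : B' i = B i := Finset.erase_eq_of_notMem (hnot i h4 h3)
        rw [this]
      have hprod : ∏ i ∈ F, (1 - (1 - u) ^ (B i).card) = (1 - (1 - u) ^ (B i₀).card) * P :=
        (Finset.mul_prod_erase F _ hi₀).symm
      rw [hprod'] at h2
      rw [hprod]
      have hcov : (C' ∩ ev A F B) \ WV V (T + 1) j ⊆
          (((C' ∩ A (T + 1)) ∩ ev A (F.erase i₀) B) \ WV V (T + 1) j) ∪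
          (((C' \ A (T + 1)) ∩ ev A F B') \ WV V (T + 1) j) := by
        rintro ω ⟨⟨h3, h4⟩, h5⟩
        by_cases h6 : ω ∈ A (T + 1)
        · exact Or.inl ⟨⟨⟨h3, h6⟩, fun i hi => h4 i (Finset.mem_of_mem_erase hi)⟩, h5⟩
        · refine Or.inr ⟨⟨⟨h3, h6⟩, fun i hi => ?_⟩, h5⟩
          obtain ⟨n, hn, hn'⟩ := h4 i hi
          exact ⟨n, Finset.mem_erase.2 ⟨fun h => h6 (h ▸ hn'), hn⟩, hn'⟩
      have h3 : μ.real ((C ∩ ev A F B) \ WV V T (j + 1)) ≤
          P * μ.real (C' ∩ A (T + 1)) + (1 - (1 - u) ^ (B' i₀).card) * P * μ.real (C' \ A (T + 1)) :=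
        ((measureReal_mono (hsub.trans hcov)).trans (measureReal_union_le _ _)).trans
          (add_le_add h1 h2)
      have h4 := measureReal_inter_add_sdiff (μ := μ) (s := C') hA1
      have h5 := upper_meas (μ := μ) hA T hCm (u := u)
        (fun ω hω => hbd T le_rfl (by omega) ω hω.2)
      rw [hcard, pow_succ]
      set w : ℝ := (1 - u) ^ (B' i₀).card with hw
      have hw0 : 0 ≤ w := pow_nonneg (by linarith) _
      have hw1 : w ≤ 1 := pow_le_one₀ (by linarith) (by linarith)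
      have h6 : P * μ.real (C' ∩ A (T + 1)) + (1 - w) * P * μ.real (C' \ A (T + 1)) =
          P * ((1 - w) * μ.real C' + w * μ.real (C' ∩ A (T + 1))) := by
        rw [← h4]; ring
      rw [h6] at h3
      refine h3.trans ?_
      have h7 : (1 - w) * μ.real C' + w * μ.real (C' ∩ A (T + 1)) ≤ (1 - w * (1 - u)) * μ.real C' := by
        nlinarith
      have h8 : 0 ≤ 1 - w * (1 - u) := by nlinarith
      calc P * ((1 - w) * μ.real C' + w * μ.real (C' ∩ A (T + 1)))
          ≤ P * ((1 - w * (1 - u)) * μ.real C) :=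
            mul_le_mul_of_nonneg_left (h7.trans (mul_le_mul_of_nonneg_left hC'C h8)) hP0
        _ = _ := by ring
    · push Not at hex
      have hB's : ∀ i ∈ F, B i ⊆ Finset.Ioc (T + 1) (T + 1 + j) := by
        intro i hi n hn
        have h2 := Finset.mem_Ioc.1 (hB i hi hn)
        have h4 : n ≠ T + 1 := fun h => hex i hi (h ▸ hn)
        rw [Finset.mem_Ioc]
        omega
      refine (measureReal_mono hsub).trans ((ih (T + 1) hbd' F B hB's hdis C' hCm').trans ?_)
      exact mul_le_mul_of_nonneg_left hC'C (hp F B)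

open Classical in
/-- the chosen integers in `(x, x + H]` -/
noncomputable def QQ (A : ℕ → Set Ω) (x H : ℕ) (ω : Ω) : Finset ℕ :=
  (Finset.Ioc x (x + H)).filter (fun q => ω ∈ A q)

lemma QQ_meas (hA : ∀ n, MeasurableSet[ℱ n] (A n)) (x H : ℕ) (S : Finset ℕ) :
    MeasurableSet[ℱ (x + H)] {ω | QQ A x H ω = S} := by
  classical
  by_cases hS : S ⊆ Finset.Ioc x (x + H)
  · have e : {ω | QQ A x H ω = S} = ⋂ q ∈ Finset.Ioc x (x + H), (if q ∈ S then A q else (A q)ᶜ) := by
      ext ω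
      simp only [mem_ofPred_eq, mem_iInter]
      constructor
      · intro h q hq
        by_cases hqS : q ∈ S
        · rw [if_pos hqS]
          rw [← h] at hqS
          exact (Finset.mem_filter.1 hqS).2
        · rw [if_neg hqS]
          intro hqA
          apply hqS
          rw [← h]
          exact Finset.mem_filter.2 ⟨hq, hqA⟩
      · intro h
        ext q
        simp only [QQ, Finset.mem_filter]
        constructor
        · rintro ⟨h1, h2⟩
          by_contra hqS
          have := h q h1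
          rw [if_neg hqS] at this
          exact this h2
        · intro hq
          have h1 := hS hq
          refine ⟨h1, ?_⟩
          have := h q h1
          rwa [if_pos hq] at this
    rw [e]
    refine Finset.measurableSet_biInter _ fun q hq => ?_
    have h1 := ℱ.mono (Finset.mem_Ioc.1 hq).2 _ (hA q)
    split_ifs
    · exact h1
    · exact h1.compl
  · have e : {ω | QQ A x H ω = S} = ∅ := by
      ext ω
      simp only [mem_ofPred_eq, mem_empty_iff_false, iff_false]
      intro h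
      exact hS (h ▸ Finset.filter_subset _ _)
    rw [e]
    exact @MeasurableSet.empty _ (ℱ (x + H))

open Classical in
lemma QQ_card (x H : ℕ) (ω : Ω) : (QQ A x H ω).card = cnt A x H ω := by
  unfold QQ cnt
  rw [Finset.card_filter]
  have : Finset.Ioc x (x + H) = (Finset.range H).image (fun r => x + 1 + r) := by
    ext q
    simp only [Finset.mem_Ioc, Finset.mem_image, Finset.mem_range]
    constructor
    · rintro ⟨h1, h2⟩
      exact ⟨q - x - 1, by omega, by omega⟩
    · rintro ⟨r, h1, rfl⟩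
      omega
  rw [this, Finset.sum_image (fun a _ b _ h => by omega)]

/-- **random families**: the sets `B q` of places for the chosen `q` in `(x, x + H]`. -/
theorem random_family (hA : ∀ n, MeasurableSet[ℱ n] (A n)) {V : ℕ → Set Ω}
    (hV : ∀ n, MeasurableSet[ℱ n] (V n)) {u : ℝ} (hu0 : 0 ≤ u) (hu1 : u ≤ 1) (x H j K m : ℕ)
    (hbd : ∀ n, x + H ≤ n → n < x + H + j → ∀ ω, ω ∉ V n → dens μ ℱ A n ω ≤ u) (B : ℕ → Finset ℕ)
    (hB : ∀ q ∈ Finset.Ioc x (x + H), B q ⊆ Finset.Ioc (x + H) (x + H + j))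
    (hdis : ∀ q ∈ Finset.Ioc x (x + H), ∀ q' ∈ Finset.Ioc x (x + H), q ≠ q' → Disjoint (B q) (B q'))
    (hcard : ∀ q ∈ Finset.Ioc x (x + H), (B q).card ≤ K) :
    μ.real ({ω | m ≤ (QQ A x H ω).card ∧ ∀ q ∈ QQ A x H ω, ∃ n ∈ B q, ω ∈ A n} \
      WV V (x + H) j) ≤ (1 - (1 - u) ^ K) ^ m := by
  classical
  set I : Finset ℕ := Finset.Ioc x (x + H) with hI
  set D : Set Ω := {ω | m ≤ (QQ A x H ω).card ∧ ∀ q ∈ QQ A x H ω, ∃ n ∈ B q, ω ∈ A n} \
      WV V (x + H) j with hD
  have hw1 : (1 - u) ^ K ≤ 1 := pow_le_one₀ (by linarith) (by linarith)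
  have hw0 : 0 ≤ (1 - u) ^ K := pow_nonneg (by linarith) _
  have hcov : D ⊆ ⋃ S ∈ I.powerset.filter (fun S => m ≤ S.card),
      (({ω | QQ A x H ω = S} ∩ ev A S B) \ WV V (x + H) j) := by
    rintro ω ⟨⟨h1, h2⟩, h3⟩
    simp only [mem_iUnion, exists_prop]
    refine ⟨QQ A x H ω, Finset.mem_filter.2 ⟨Finset.mem_powerset.2 (Finset.filter_subset _ _), h1⟩,
      ⟨⟨rfl, fun i hi => h2 i hi⟩, h3⟩⟩
  have h1 : μ.real D ≤ ∑ S ∈ I.powerset.filter (fun S => m ≤ S.card),
      (1 - (1 - u) ^ K) ^ m * μ.real {ω | QQ A x H ω = S} := by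
    refine ((measureReal_mono hcov (measure_ne_top _ _)).trans (measureReal_biUnion_finset_le _ _)).trans ?_
    refine Finset.sum_le_sum fun S hS => ?_
    obtain ⟨hS1, hS2⟩ := Finset.mem_filter.1 hS
    have hS1 := Finset.mem_powerset.1 hS1
    refine (pat_le hA hV hu0 hu1 j (x + H) hbd S B (fun i hi => hB i (hS1 hi))
      (fun i hi i' hi' => hdis i (hS1 hi) i' (hS1 hi')) _ (QQ_meas hA x H S)).trans ?_
    refine mul_le_mul_of_nonneg_right ?_ measureReal_nonneg
    calc ∏ i ∈ S, (1 - (1 - u) ^ (B i).card) ≤ ∏ i ∈ S, (1 - (1 - u) ^ K) := by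
          refine Finset.prod_le_prod (fun i _ => ?_) (fun i hi => ?_)
          · have : (1 - u) ^ (B i).card ≤ 1 := pow_le_one₀ (by linarith) (by linarith)
            linarith
          · have := pow_le_pow_of_le_one (a := 1 - u) (by linarith) (by linarith) (hcard i (hS1 hi))
            linarith
      _ = (1 - (1 - u) ^ K) ^ S.card := by rw [Finset.prod_const]
      _ ≤ (1 - (1 - u) ^ K) ^ m := pow_le_pow_of_le_one (by linarith) (by linarith) hS2
  refine h1.trans ?_
  rw [← Finset.mul_sum]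
  refine mul_le_of_le_one_right (pow_nonneg (by linarith) _) ?_
  have h2 : ∑ S ∈ I.powerset.filter (fun S => m ≤ S.card), μ.real {ω | QQ A x H ω = S} =
      μ.real (⋃ S ∈ I.powerset.filter (fun S => m ≤ S.card), {ω | QQ A x H ω = S}) := by
    rw [measureReal_biUnion_finset]
    · intro S _ S' _ hne
      rw [Function.onFun, Set.disjoint_left]
      intro ω h3 h4
      exact hne (h3.symm.trans h4)
    · intro S _
      exact ℱ.le _ _ (QQ_meas hA x H S)
  rw [h2]
  exact measureReal_le_one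

end Pool.Agent.N727.SM
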