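import Mathlib
import Pool.Agent.N727.SM.Pat
import Pool.Agent.N740.HK.Short

/-!
# The least `k` with `a k q + b` chosen
-/

set_option autoImplicit false
set_option linter.unusedSectionVars false

open MeasureTheory Filter Set
open scoped ENNReal Topology

namespace Pool.Agent.N727.SM

open Pool.Agent.R528.RM Pool.Agent.N740.HK

variable {Ω : Type} {m0 : MeasurableSpace Ω} {μ : Measure Ω} [IsProbabilityMeasure μ]
  {ℱ : Filtration ℕ m0} {A : ℕ → Set Ω}

lemma tlog : Tendsto (fun n : ℕ => Real.log n) atTop atTop :=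
  Real.tendsto_log_atTop.comp tendsto_natCast_atTop_atTop

/-- powers beat logarithms -/
lemma pow_log {s c : ℝ} (hs : 0 < s) (hc : 0 < c) (k : ℕ) :
    ∀ᶠ x : ℝ in atTop, c * Real.log x ^ k ≤ x ^ s := by
  have h := (isLittleO_log_rpow_rpow_atTop (k : ℝ) hs).def (show (0 : ℝ) < 1 / c by positivity)
  filter_upwards [h, eventually_gt_atTop 1] with x hx hx1
  have hlog : 0 ≤ Real.log x := Real.log_nonneg hx1.le
  have hx0 : (0 : ℝ) ≤ x := by linarith
  rw [Real.norm_of_nonneg (by positivity), Real.norm_of_nonneg (by positivity), Real.rpow_natCast] at hx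
  calc c * Real.log x ^ k ≤ c * (1 / c * x ^ s) := mul_le_mul_of_nonneg_left hx hc.le
    _ = x ^ s := by field_simp

/-- a summable bound gives a summable series of measures -/
lemma summ {E : ℕ → Set Ω} {C s : ℝ} (hs : 1 < s)
    (h : ∀ᶠ n : ℕ in atTop, μ.real (E n) ≤ C * (1 / (n : ℝ) ^ s)) : ∑' n : ℕ, μ (E n) ≠ ∞ := by
  have h1 : Summable (fun x : ℕ => C * (1 / (x : ℝ) ^ s)) :=
    (Real.summable_one_div_nat_rpow.2 hs).mul_left _
  have h2 : Summable (fun n : ℕ => μ.real (E n)) := by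
    refine Summable.of_norm_bounded_eventually_nat h1 ?_
    filter_upwards [h] with x hx
    rw [Real.norm_of_nonneg measureReal_nonneg]
    exact hx
  have h3 : ∑' n : ℕ, μ (E n) = ENNReal.ofReal (∑' n : ℕ, μ.real (E n)) := by
    rw [ENNReal.ofReal_tsum_of_nonneg (fun _ => measureReal_nonneg) h2]
    congr 1
    funext i
    exact (ofReal_measureReal (measure_ne_top _ _)).symm
  rw [h3]
  exact ENNReal.ofReal_ne_top

/-- **upper bound**: for all large integers `q` some `a k q + b` with `k ≤ (1 + ε) log² q` is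
chosen -/
theorem least_upper (hA : ∀ n, MeasurableSet[ℱ n] (A n))
    (hd : ∀ᵐ ω ∂μ, Tendsto (fun n : ℕ => dens μ ℱ A n ω * Real.log n) atTop (𝓝 1))
    {a b : ℕ} (ha : 1 ≤ a) {ε : ℝ} (hε : 0 < ε) (hε1 : ε ≤ 1) :
    ∀ᵐ ω ∂μ, ∀ᶠ q : ℕ in atTop, ∃ k : ℕ, 1 ≤ k ∧ (k : ℝ) ≤ (1 + ε) * Real.log q ^ 2 ∧
      ω ∈ A (a * k * q + b) := by
  set δ : ℝ := ε / 8 with hδ
  have hδ0 : 0 < δ := by positivity
  have hδ1 : δ ≤ 1 / 8 := by linarith
  set K : ℕ → ℕ := fun q => ⌊(1 + ε) * Real.log q ^ 2⌋₊ with hK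
  set t : ℕ → ℕ → ℕ := fun q i => a * (i + 1) * q + b with ht
  have hev : ∀ᶠ q : ℕ in atTop, μ.real (NP A (VF μ ℱ A δ) (t q) (K q)) ≤
      Real.exp 1 * (1 / (q : ℝ) ^ (1 + ε / 4)) := by
    have e1 : ∀ᶠ x : ℝ in atTop, (2 * (a : ℝ) + (b : ℝ) + a) * Real.log x ^ 2 ≤ x ^ δ :=
      pow_log hδ0 (by have : (1 : ℝ) ≤ a := by exact_mod_cast ha
                      positivity) 2
    filter_upwards [tendsto_natCast_atTop_atTop.eventually e1, tlog.eventually_ge_atTop 2,
      eventually_ge_atTop 2] with q h1 h2 h3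
    set L : ℝ := Real.log q with hL
    have hq : (2 : ℝ) ≤ q := by exact_mod_cast h3
    have hKle : (K q : ℝ) ≤ (1 + ε) * L ^ 2 := Nat.floor_le (by positivity)
    have hKge : (1 + ε) * L ^ 2 - 1 ≤ (K q : ℝ) := (Nat.sub_one_lt_floor _).le
    have hmono : StrictMono (t q) := by
      refine strictMono_nat_of_lt_succ fun i => ?_
      simp only [ht]
      have : a * (i + 1) * q < a * (i + 1 + 1) * q := by
        apply Nat.mul_lt_mul_of_pos_right _ (by omega)
        exact Nat.mul_lt_mul_of_pos_left (by omega) (by omega)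
      omega
    have htq : ∀ i, q ≤ t q i := by
      intro i
      simp only [ht]
      have : 1 * q ≤ a * (i + 1) * q := Nat.mul_le_mul_right q (by nlinarith)
      omega
    have ht0 : 1 ≤ t q 0 := by have := htq 0; omega
    set l : ℝ := (1 - δ) / ((1 + δ) * L) with hl
    have hl1 : l ≤ 1 := by
      rw [hl, div_le_one (by positivity)]
      nlinarith
    have hl0 : 0 ≤ l := div_nonneg (by linarith) (by positivity)
    have hmain := (NP_le (μ := μ) hA (V := VF μ ℱ A δ) (fun n => VF_meas δ n) hmono ht0 hl1 (K q)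
      (by
        intro i hi ω hω
        have h4 := htq i
        have hti : 1 ≤ t q i - 1 := by
          have : t q 0 ≤ t q i := hmono.monotone (Nat.zero_le i)
          omega
        simp only [VF, mem_ofPred_eq, not_not] at hω
        have h5 := (abs_le.1 hω).1
        set n := t q i - 1 with hn
        have hn2 : (n : ℝ) ≤ q ^ (1 + δ) := by
          have h6 : (n : ℝ) ≤ a * (i + 1) * q + b := by
            have : n ≤ a * (i + 1) * q + b := by
              have : t q i = a * (i + 1) * q + b := rfl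
              omega
            exact_mod_cast this
          have h7 : (i : ℝ) + 1 ≤ (1 + ε) * L ^ 2 := by
            refine le_trans ?_ hKle
            exact_mod_cast hi
          have h8 : (n : ℝ) ≤ ((2 * a + b + a) * L ^ 2) * q := by
            refine h6.trans ?_
            have hL2 : (1 : ℝ) ≤ L ^ 2 := by nlinarith
            have ha' : (0 : ℝ) ≤ a := Nat.cast_nonneg a
            have hb' : (0 : ℝ) ≤ b := Nat.cast_nonneg b
            have h9 : (a : ℝ) * (i + 1) * q ≤ a * (2 * L ^ 2) * q := by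
              apply mul_le_mul_of_nonneg_right _ (by linarith)
              apply mul_le_mul_of_nonneg_left _ ha'
              nlinarith
            have h10 : (b : ℝ) ≤ b * L ^ 2 * q := by
              have : (1 : ℝ) ≤ L ^ 2 * q := by nlinarith
              nlinarith
            have h11 : 0 ≤ (a : ℝ) * L ^ 2 * q := by positivity
            nlinarith
          refine h8.trans ?_
          rw [Real.rpow_add (by linarith), Real.rpow_one, mul_comm (q : ℝ)]
          exact mul_le_mul_of_nonneg_right h1 (by linarith)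
        have hn1 : (1 : ℝ) ≤ n := by exact_mod_cast hti
        have hlogn : Real.log n ≤ (1 + δ) * L := by
          rw [hL, ← Real.log_rpow (by linarith)]
          exact Real.log_le_log (by linarith) hn2
        have hlogn0 : 0 ≤ Real.log n := Real.log_nonneg hn1
        have hdn : 1 - δ ≤ dens μ ℱ A n ω * Real.log n := by linarith
        have hdpos : 0 ≤ dens μ ℱ A n ω := by
          by_contra hcon
          push Not at hcon
          have := mul_nonpos_of_nonpos_of_nonneg hcon.le hlogn0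
          linarith
        rw [hl, div_le_iff₀ (by positivity)]
        exact hdn.trans (mul_le_mul_of_nonneg_left hlogn hdpos))).2
    refine hmain.trans ?_
    have h4 : 1 - l ≤ Real.exp (-l) := by
      have := Real.add_one_le_exp (-l)
      linarith
    refine (pow_le_pow_left₀ (by linarith) h4 _).trans ?_
    rw [← Real.exp_nat_mul]
    have e2 : 1 / (q : ℝ) ^ (1 + ε / 4) = Real.exp (-((1 + ε / 4) * L)) := by
      rw [Real.rpow_def_of_pos (by linarith), one_div, ← Real.exp_neg]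
      congr 1
      ring
    rw [e2, ← Real.exp_add]
    apply Real.exp_le_exp.2
    have k1 : l * ((1 + ε) * L ^ 2 - 1) ≤ l * K q := mul_le_mul_of_nonneg_left hKge hl0
    have k2 : (1 + ε / 4) * L ≤ l * ((1 + ε) * L ^ 2) := by
      have : l * ((1 + ε) * L ^ 2) = ((1 - δ) * (1 + ε) / (1 + δ)) * L := by
        rw [hl]; field_simp
      rw [this]
      apply mul_le_mul_of_nonneg_right _ (by linarith)
      rw [le_div_iff₀ (by linarith)]
      rw [hδ]
      nlinarith
    nlinarith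
  have hsum := summ (μ := μ) (show (1 : ℝ) < 1 + ε / 4 by linarith) hev
  filter_upwards [ae_eventually_notMem hsum, hd] with ω h1 h2
  obtain ⟨n₀, hn₀⟩ := no_VF h2 hδ0
  filter_upwards [h1, eventually_ge_atTop (n₀ + 1)] with q hq hqn
  by_contra hcon
  push Not at hcon
  apply hq
  rw [mem_NP]
  intro i hi
  refine ⟨?_, ?_⟩
  · apply hn₀
    simp only [ht]
    have : 1 * q ≤ a * (i + 1) * q := Nat.mul_le_mul_right q (by nlinarith)
    omega
  · refine hcon (i + 1) (by omega) ?_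
    have h3 : (i + 1 : ℕ) ≤ K q := hi
    have h4 : (K q : ℝ) ≤ (1 + ε) * Real.log q ^ 2 := Nat.floor_le (by positivity)
    have h5 : ((i + 1 : ℕ) : ℝ) ≤ (K q : ℝ) := by exact_mod_cast h3
    linarith

/-- the probability of the success of all members of a random family -/
lemma prob_small {ε : ℝ} (hε : 0 < ε) (hε1 : ε < 1) : ∀ᶠ x : ℝ in atTop,
    ∀ K m : ℕ, (K : ℝ) ≤ (1 - ε) * Real.log (2 * x) ^ 2 →
      x ^ (1 - ε / 4) / (4 * Real.log x) ≤ m →
      (1 - (1 - (1 + ε / 8) / Real.log x) ^ K) ^ m ≤ 1 / x ^ (2 : ℝ) := by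
  set δ : ℝ := ε / 8 with hδ
  have hδ0 : 0 < δ := by positivity
  have hδ1 : δ ≤ 1 / 8 := by linarith
  filter_upwards [pow_log (show 0 < ε / 4 by positivity) (show (0 : ℝ) < 8 by norm_num) 2,
    Real.tendsto_log_atTop.eventually_ge_atTop (3 / δ), eventually_gt_atTop 1] with x h1 h2 hx K m hK hm
  set L : ℝ := Real.log x with hL
  have hx0 : 0 < x := by linarith
  have hLδ : 3 ≤ L * δ := by rwa [div_le_iff₀ hδ0] at h2
  have hL24 : 24 ≤ L := by nlinarith
  have hL0 : 0 < L := by linarith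
  set u : ℝ := (1 + δ) / L with hu
  have hu0 : 0 < u := by positivity
  have huL : u * L = 1 + δ := by rw [hu]; field_simp
  have hu1 : u * (1 + δ) ≤ δ := by
    rw [hu, div_mul_eq_mul_div, div_le_iff₀ hL0]
    nlinarith
  have hu2 : u < 1 := by nlinarith
  have hlog : -((1 + δ) * u) ≤ Real.log (1 - u) := by
    have h3 := Real.one_sub_inv_le_log_of_pos (show 0 < 1 - u by linarith)
    have h4 : (1 - u)⁻¹ ≤ 1 + (1 + δ) * u := by
      rw [inv_le_iff_one_le_mul₀ (by linarith)]
      nlinarith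
    linarith
  have hlog2 : Real.log (2 * x) ≤ L + 1 := by
    rw [Real.log_mul (by norm_num) hx0.ne']
    have := Real.log_two_lt_d9
    linarith
  have hlog20 : 0 ≤ Real.log (2 * x) := Real.log_nonneg (by linarith)
  have hK2 : (K : ℝ) ≤ (1 - ε) * ((1 + δ) * L ^ 2) := by
    refine hK.trans (mul_le_mul_of_nonneg_left ?_ (by linarith))
    have h5 : Real.log (2 * x) ^ 2 ≤ (L + 1) ^ 2 := pow_le_pow_left₀ hlog20 hlog2 2
    nlinarith
  have hp : Real.exp (-((1 - ε / 2) * L)) ≤ (1 - u) ^ K := by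
    have e1 : (1 - u) ^ K = Real.exp (K * Real.log (1 - u)) := by
      rw [← Real.log_pow, Real.exp_log (pow_pos (by linarith) _)]
    rw [e1]
    apply Real.exp_le_exp.2
    have h5 : (K : ℝ) * -((1 + δ) * u) ≤ K * Real.log (1 - u) :=
      mul_le_mul_of_nonneg_left hlog (Nat.cast_nonneg _)
    have h6 : (K : ℝ) * ((1 + δ) * u) ≤ (1 - ε) * ((1 + δ) * L ^ 2) * ((1 + δ) * u) :=
      mul_le_mul_of_nonneg_right hK2 (by positivity)
    have h7 : (1 - ε) * ((1 + δ) * L ^ 2) * ((1 + δ) * u) = (1 - ε) * (1 + δ) ^ 3 * L := by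
      calc (1 - ε) * ((1 + δ) * L ^ 2) * ((1 + δ) * u) = (1 - ε) * (1 + δ) ^ 2 * L * (u * L) := by ring
        _ = _ := by rw [huL]; ring
    have h8 : (1 - ε) * (1 + δ) ^ 3 ≤ 1 - ε / 2 := by
      have h9 : (1 + δ) ^ 3 ≤ 1 + ε / 2 := by
        rw [hδ]
        nlinarith [mul_pos hε hε, mul_pos (mul_pos hε hε) hε, mul_nonneg hε.le (sub_nonneg.2 hε1.le),
          mul_nonneg (mul_pos hε hε).le (sub_nonneg.2 hε1.le)]
      nlinarith
    have h10 : (1 - ε) * (1 + δ) ^ 3 * L ≤ (1 - ε / 2) * L := mul_le_mul_of_nonneg_right h8 hL0.le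
    linarith
  have hp1 : (1 - u) ^ K ≤ 1 := pow_le_one₀ (by linarith) (by linarith)
  have hm' : 2 * L ≤ (1 - u) ^ K * m := by
    have e2 : Real.exp (-((1 - ε / 2) * L)) = x ^ (-(1 - ε / 2)) := by
      rw [Real.rpow_def_of_pos hx0]
      congr 1
      ring
    calc 2 * L ≤ x ^ (ε / 4) / (4 * L) := by
          rw [le_div_iff₀ (by positivity)]
          calc 2 * L * (4 * L) = 8 * L ^ 2 := by ring
            _ ≤ _ := h1
      _ = Real.exp (-((1 - ε / 2) * L)) * (x ^ (1 - ε / 4) / (4 * L)) := by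
          rw [e2, ← mul_div_assoc, ← Real.rpow_add hx0]
          congr 2
          ring
      _ ≤ (1 - u) ^ K * m := mul_le_mul hp hm (by positivity) (pow_nonneg (by linarith) _)
  have h11 : 1 - (1 - u) ^ K ≤ Real.exp (-(1 - u) ^ K) := by
    have := Real.add_one_le_exp (-(1 - u) ^ K)
    linarith
  refine (pow_le_pow_left₀ (by linarith) h11 _).trans ?_
  rw [← Real.exp_nat_mul]
  have e3 : 1 / x ^ (2 : ℝ) = Real.exp (-(2 * L)) := by
    rw [Real.rpow_def_of_pos hx0, one_div, ← Real.exp_neg]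
    congr 1
    ring
  rw [e3]
  apply Real.exp_le_exp.2
  linarith

/-- the places of `q` -/
def PB (a b K q : ℕ) : Finset ℕ := (Finset.Icc 1 K).image fun k => a * k * q + b

lemma PB_disj {a b K x H : ℕ} (ha : 1 ≤ a) (hKH : K * H ≤ x) {q q' : ℕ} (hq : q ∈ Finset.Ioc x (x + H))
    (hq' : q' ∈ Finset.Ioc x (x + H)) (hne : q ≠ q') : Disjoint (PB a b K q) (PB a b K q') := by
  rw [Finset.mem_Ioc] at hq hq'
  have key : ∀ q q' k k' : ℕ, x < q → q < q' → q' ≤ x + H → 1 ≤ k' → k' ≤ K → k * q ≠ k' * q' := by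
    intro q q' k k' h1 h2 h3 h8 h4 h5
    have h6 : k' < k := by
      by_contra hcon
      push Not at hcon
      have h7 : k * q ≤ k' * q := Nat.mul_le_mul_right q hcon
      have : k' * q < k' * q' := Nat.mul_lt_mul_of_pos_left h2 h8
      omega
    have h7 : (k' + 1) * q ≤ k * q := Nat.mul_le_mul_right q h6
    obtain ⟨d, rfl⟩ := Nat.exists_eq_add_of_lt h2
    have h8 : k' * (d + 1) ≤ K * H := Nat.mul_le_mul h4 (by omega)
    nlinarith
  rw [Finset.disjoint_left]
  intro n h1 h2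
  obtain ⟨k, hk, rfl⟩ := Finset.mem_image.1 h1
  obtain ⟨k', hk', h3⟩ := Finset.mem_image.1 h2
  rw [Finset.mem_Icc] at hk hk'
  have h4 : a * (k' * q') = a * (k * q) := by
    have : a * k' * q' = a * k * q := by omega
    linarith
  have h5 := Nat.eq_of_mul_eq_mul_left (by omega) h4
  rcases lt_or_gt_of_ne hne with h | h
  · exact key q q' k k' hq.1 h hq'.2 hk'.1 hk'.2 h5.symm
  · exact key q' q k' k hq'.1 h hq.2 hk.1 hk.2 h5

/-- **lower bound**: every short interval contains a chosen `q` such that no `a k q + b` with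
`k ≤ (1 - ε) log² q` is chosen -/
theorem least_lower (hA : ∀ n, MeasurableSet[ℱ n] (A n))
    (hd : ∀ᵐ ω ∂μ, Tendsto (fun n : ℕ => dens μ ℱ A n ω * Real.log n) atTop (𝓝 1))
    {a b : ℕ} (ha : 2 ≤ a) {ε : ℝ} (hε : 0 < ε) (hε1 : ε < 1) :
    ∀ᵐ ω ∂μ, ∀ᶠ x : ℕ in atTop, ∃ q : ℕ, ω ∈ A q ∧ x < q ∧ (q : ℝ) ≤ x + (x : ℝ) ^ (1 - ε / 4) ∧
      ∀ k : ℕ, 1 ≤ k → (k : ℝ) ≤ (1 - ε) * Real.log q ^ 2 → ω ∉ A (a * k * q + b) := by
  classical
  set δ : ℝ := ε / 8 with hδ
  have hδ0 : 0 < δ := by positivity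
  have hδ1 : δ ≤ 1 / 8 := by linarith
  set H : ℕ → ℕ := fun x => ⌊(x : ℝ) ^ (1 - ε / 4)⌋₊ with hH
  set K : ℕ → ℕ := fun x => ⌊(1 - ε) * Real.log (2 * x) ^ 2⌋₊ with hK
  set m : ℕ → ℕ := fun x => ⌊(H x : ℝ) / (2 * Real.log x)⌋₊ with hm
  set j : ℕ → ℕ := fun x => a * K x * (2 * x) + b with hj
  set E : ℕ → Set Ω := fun x => {ω | m x ≤ (QQ A x (H x) ω).card ∧
    ∀ q ∈ QQ A x (H x) ω, ∃ n ∈ PB a b (K x) q, ω ∈ A n} \ WV (VF μ ℱ A δ) (x + H x) (j x) with hE
  obtain ⟨K₀, hK₀, hshort⟩ := short (μ := μ) hA hd (show (0 : ℝ) < 1 / 2 by norm_num)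
  -- the sizes
  have hsize : ∀ᶠ x : ℕ in atTop, 24 ≤ Real.log x ∧ H x ≤ x ∧ K x * H x ≤ x ∧
      K₀ * Real.log x ^ 2 ≤ H x ∧ (x : ℝ) ^ (1 - ε / 4) / (4 * Real.log x) ≤ m x := by
    filter_upwards [tendsto_natCast_atTop_atTop.eventually
        (pow_log (show 0 < ε / 4 by positivity) (show (0 : ℝ) < 4 by norm_num) 2),
      tendsto_natCast_atTop_atTop.eventually
        (pow_log (show 0 < 1 - ε / 4 by linarith) (show (0 : ℝ) < 2 * K₀ + 8 by positivity) 2),
      tlog.eventually_ge_atTop 24] with x h1 h2 h3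
    set L : ℝ := Real.log x with hL
    have hx1 : 1 ≤ x := by
      rcases Nat.eq_zero_or_pos x with h | h
      · rw [hL, h] at h3
        norm_num at h3
      · exact h
    have hx1' : (1 : ℝ) ≤ x := by exact_mod_cast hx1
    have hHle : (H x : ℝ) ≤ (x : ℝ) ^ (1 - ε / 4) := Nat.floor_le (by positivity)
    have hHge : (x : ℝ) ^ (1 - ε / 4) - 1 ≤ (H x : ℝ) := (Nat.sub_one_lt_floor _).le
    have hHx : (x : ℝ) ^ (1 - ε / 4) ≤ x := by
      calc (x : ℝ) ^ (1 - ε / 4) ≤ (x : ℝ) ^ (1 : ℝ) := Real.rpow_le_rpow_of_exponent_le hx1' (by linarith)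
        _ = x := Real.rpow_one _
    have hlog2 : Real.log (2 * x) ≤ L + 1 := by
      rw [Real.log_mul (by norm_num) (by positivity)]
      have := Real.log_two_lt_d9
      linarith
    have hlog20 : 0 ≤ Real.log (2 * x) := Real.log_nonneg (by linarith)
    have hKle : (K x : ℝ) ≤ 4 * L ^ 2 := by
      have h4 : (K x : ℝ) ≤ (1 - ε) * Real.log (2 * x) ^ 2 := Nat.floor_le (by
        have : 0 ≤ 1 - ε := by linarith
        positivity)
      have h5 : Real.log (2 * x) ^ 2 ≤ (L + 1) ^ 2 := pow_le_pow_left₀ hlog20 hlog2 2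
      have h6 : (1 - ε) * Real.log (2 * x) ^ 2 ≤ 1 * (L + 1) ^ 2 :=
        mul_le_mul (by linarith) h5 (by positivity) (by norm_num)
      nlinarith
    have hbig : (2 * K₀ + 8) * L ^ 2 ≤ (x : ℝ) ^ (1 - ε / 4) := h2
    have hL2 : 24 * L ≤ L ^ 2 := by nlinarith
    refine ⟨h3, ?_, ?_, ?_, ?_⟩
    · exact_mod_cast hHle.trans hHx
    · have h4 : (K x : ℝ) * H x ≤ (x : ℝ) ^ (ε / 4) * (x : ℝ) ^ (1 - ε / 4) :=
        mul_le_mul (hKle.trans h1) hHle (Nat.cast_nonneg _) (by positivity)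
      rw [← Real.rpow_add (by positivity), show ε / 4 + (1 - ε / 4) = 1 by ring, Real.rpow_one] at h4
      exact_mod_cast h4
    · nlinarith
    · have h4 : (H x : ℝ) / (2 * L) - 1 ≤ (m x : ℝ) := (Nat.sub_one_lt_floor _).le
      refine le_trans ?_ h4
      rw [le_sub_iff_add_le, div_add_one (by positivity), div_le_div_iff₀ (by positivity) (by positivity)]
      have h5 : (x : ℝ) ^ (1 - ε / 4) + 4 * L ≤ 2 * H x := by nlinarith
      nlinarith
  have hev : ∀ᶠ x : ℕ in atTop, μ.real (E x) ≤ 1 * (1 / (x : ℝ) ^ (2 : ℝ)) := by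
    filter_upwards [hsize, tendsto_natCast_atTop_atTop.eventually (prob_small hε hε1)] with x hx hp
    obtain ⟨hL24, hHx, hKH, -, hmx⟩ := hx
    set L : ℝ := Real.log x with hL
    have hL0 : 0 < L := by linarith
    have hx0 : 0 < x := by
      rcases Nat.eq_zero_or_pos x with h | h
      · rw [hL, h] at hL24
        norm_num at hL24
      · exact h
    have hKle : (K x : ℝ) ≤ (1 - ε) * Real.log (2 * x) ^ 2 := Nat.floor_le (by
      have : 0 ≤ 1 - ε := by linarith
      positivity)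
    rw [one_mul]
    refine le_trans ?_ (hp (K x) (m x) hKle hmx)
    refine random_family (μ := μ) hA (V := VF μ ℱ A δ) (fun n => VF_meas δ n) (u := (1 + δ) / L)
      (by positivity) (by rw [div_le_one hL0]; linarith) x (H x) (j x) (K x) (m x) ?_ (PB a b (K x))
      ?_ ?_ ?_
    · intro n hn1 hn2 ω hω
      simp only [VF, mem_ofPred_eq, not_not] at hω
      have h5 := (abs_le.1 hω).2
      have hLn : L ≤ Real.log n := Real.log_le_log (by exact_mod_cast hx0) (by exact_mod_cast (by omega : x ≤ n))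
      rw [le_div_iff₀ hL0]
      rcases le_or_gt 0 (dens μ ℱ A n ω) with h | h
      · have := mul_le_mul_of_nonneg_left hLn h
        linarith
      · have := mul_neg_of_neg_of_pos h hL0
        linarith
    · intro q hq n hn
      rw [Finset.mem_Ioc] at hq
      obtain ⟨k, hk, rfl⟩ := Finset.mem_image.1 hn
      rw [Finset.mem_Icc] at hk
      rw [Finset.mem_Ioc]
      have h6 : 2 * 1 * q ≤ a * k * q := Nat.mul_le_mul_right q (Nat.mul_le_mul ha hk.1)
      have h7 : a * k * q ≤ a * K x * (2 * x) := Nat.mul_le_mul (Nat.mul_le_mul_left a hk.2) (by omega)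
      simp only [hj]
      constructor
      · omega
      · omega
    · intro q hq q' hq' hne
      exact PB_disj (by omega) hKH hq hq' hne
    · intro q hq
      refine Finset.card_image_le.trans ?_
      simp
  have hsum := summ (μ := μ) (by norm_num : (1 : ℝ) < 2) hev
  filter_upwards [ae_eventually_notMem hsum, hd, hshort] with ω h1 h2 h3
  obtain ⟨n₀, hn₀⟩ := no_VF h2 hδ0
  filter_upwards [h1, h3, hsize, eventually_ge_atTop n₀] with x hx1 hx2 hx3 hx4
  obtain ⟨hL24, hHx, hKH, hKH0, hmx⟩ := hx3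
  have hL0 : 0 < Real.log x := by linarith
  have hx0 : 0 < x := by
    rcases Nat.eq_zero_or_pos x with h | h
    · rw [h] at hL24
      norm_num at hL24
    · exact h
  have hcnt := (abs_le.1 (hx2 (H x) hKH0 hHx)).1
  have hmle : m x ≤ (QQ A x (H x) ω).card := by
    rw [QQ_card]
    have h4 : (m x : ℝ) ≤ (H x : ℝ) / (2 * Real.log x) := Nat.floor_le (by positivity)
    have h5 : (H x : ℝ) / (2 * Real.log x) = 1 / 2 * (H x / Real.log x) := by
      field_simp
    have h6 : (m x : ℝ) ≤ cnt A x (H x) ω := by linarith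
    exact_mod_cast h6
  have hex : ∃ q ∈ QQ A x (H x) ω, ∀ n ∈ PB a b (K x) q, ω ∉ A n := by
    by_contra hcon
    push Not at hcon
    apply hx1
    refine ⟨⟨hmle, hcon⟩, ?_⟩
    rintro ⟨n, hn1, hn2, hn3⟩
    exact hn₀ n (by omega) hn3
  obtain ⟨q, hq, hqn⟩ := hex
  obtain ⟨hq1, hq2⟩ := Finset.mem_filter.1 hq
  rw [Finset.mem_Ioc] at hq1
  have hHle : (H x : ℝ) ≤ (x : ℝ) ^ (1 - ε / 4) := Nat.floor_le (by positivity)
  have hq3 : (q : ℝ) ≤ x + H x := by exact_mod_cast hq1.2
  refine ⟨q, hq2, hq1.1, by linarith, fun k hk1 hk2 => ?_⟩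
  apply hqn
  refine Finset.mem_image.2 ⟨k, Finset.mem_Icc.2 ⟨hk1, ?_⟩, rfl⟩
  apply Nat.le_floor
  refine hk2.trans ?_
  have hq0 : (1 : ℝ) ≤ q := by exact_mod_cast (by omega : 1 ≤ q)
  have hHx' : (H x : ℝ) ≤ x := by exact_mod_cast hHx
  have h8 : Real.log q ≤ Real.log (2 * x) := Real.log_le_log (by linarith) (by linarith)
  exact mul_le_mul_of_nonneg_left (pow_le_pow_left₀ (Real.log_nonneg hq0) h8 2) (by linarith)

end Pool.Agent.N727.SM
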